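import Pool.Agent.Helper14.LE.Stmts2

/-!
# BDY: boundary values in `ℝ⁶`
-/

open MeasureTheory Set Filter Topology InnerProductSpace

noncomputable section

namespace LEP.BDY

lemma ra_nonneg (x : E6) : 0 ≤ ra x := Real.sqrt_nonneg _

lemma rb_nonneg (x : E6) : 0 ≤ rb x := Real.sqrt_nonneg _

lemma sq_im_eq (z : ℂ) : (z ^ 2).im = 2 * (z.re * z.im) := by
  simp [pow_two, Complex.mul_im]; ring

lemma lift_eq (w : ℂ → ℝ) (x : E6) : lift w x = 2 * (w (ZZ x) / ((ZZ x) ^ 2).im) := by
  rw [sq_im_eq]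
  unfold lift
  have h1 : (ZZ x).re = ra x := rfl
  have h2 : (ZZ x).im = rb x := rfl
  rw [h1, h2, mul_div_assoc', mul_div_mul_left _ _ two_ne_zero]

/-- **BDY** -/
theorem st_BDY (h3 : ST_T3) (h5 : ST_T5) (hdom : ST_DOM) (hE : ST_GEO) : ST_BDY := by
  intro Rv hRv n f hfc hfb ξ hξ
  have hR : Prof (Rn Rv n) := (hE.2 Rv hRv).2.1 n
  set R := Rn Rv n with hRdef
  have hDo : IsOpen (Ddom R) := (hE.1 R hR).2.1
  obtain ⟨hZn, hZc, -, hOm, hFg⟩ := hdom
  obtain ⟨hiff, hOo, -, h0⟩ := hOm R hR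
  have hfr : frontier (Om R) = {x | Fg R x = 1} := (hFg Rv hRv n).2.2.2.2.2.1
  have hξn : ξ ∉ Om R := by
    rw [hOo.frontier_eq] at hξ
    exact hξ.2
  have hξ0 : ξ ≠ 0 := by
    rintro rfl; exact hξn h0
  have hξF : Fg R ξ = 1 := by
    rw [hfr] at hξ; exact hξ
  have hmem : ∀ x ∈ {x | x ∈ Om R ∧ 0 < ra x ∧ 0 < rb x}, ZZ x ∈ Ddom R := by
    rintro x ⟨hx, ha, hb⟩
    exact (hiff x ha hb).1 hx
  have hnorm : ‖ξ‖ = R (Complex.arg (ZZ ξ)) := by
    have h1 : ‖ξ‖ / R (Complex.arg (ZZ ξ)) = 1 := hξF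
    exact eq_of_div_eq_one h1
  obtain ⟨C, hC⟩ := hfb
  have hfm : AEStronglyMeasurable f (volume.restrict (Ddom R)) :=
    hfc.aestronglyMeasurable hDo.measurableSet
  obtain ⟨B, hB⟩ := hR.bdd
  have hB1 : 1 ≤ B := (hR.one_le 0).trans (hB 0)
  have hDB : ∀ z ∈ Ddom R, ‖z‖ ≤ B := fun z hz => by
    have h1 : ‖z‖ < R (Complex.arg (fold z)) := hz.1
    exact (h1.trans_le (hB _)).le
  have hDfin : volume (Ddom R) ≠ ⊤ := by
    have hb : Bornology.IsBounded (Ddom R) := by
      refine (Metric.isBounded_closedBall (x := (0 : ℂ)) (r := B)).subset ?_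
      intro z hz
      simpa using hDB z hz
    exact hb.measure_lt_top.ne
  by_cases hcase : 0 < ra ξ ∧ 0 < rb ξ
  · -- away from the axes
    obtain ⟨ha, hb⟩ := hcase
    have hf4 : IntegrableOn (fun y => (f y) ^ 4) (Ddom R) := by
      have : IsFiniteMeasure (volume.restrict (Ddom R)) := ⟨by
        rw [Measure.restrict_apply_univ]; exact hDfin.lt_top⟩
      refine Integrable.of_bound (hfm.pow 4) ((|C| * B ^ 2) ^ 4) ?_
      filter_upwards [ae_restrict_mem hDo.measurableSet] with y hy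
      rw [norm_pow, Real.norm_eq_abs]
      have h1 : |f y| ≤ |C| * B ^ 2 := by
        refine (hC y hy).trans ?_
        have h2 : (y ^ 2).im ≤ B ^ 2 := by
          calc (y ^ 2).im ≤ ‖y ^ 2‖ := (le_abs_self _).trans (Complex.abs_im_le_norm _)
            _ = ‖y‖ ^ 2 := norm_pow _ _
            _ ≤ B ^ 2 := by gcongr; exact hDB y hy
        have h3 : 0 ≤ (y ^ 2).im := by
          rw [sq_im_eq]
          have h4 : 0 < y.re := hy.2.1
          have h5 : 0 < y.im := hy.2.2
          positivity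
        calc C * (y ^ 2).im ≤ |C| * (y ^ 2).im := by gcongr; exact le_abs_self C
          _ ≤ |C| * B ^ 2 := by gcongr
      gcongr
    have hT := (h3 R hR f hfm hf4).2
    have hZξ : ZZ ξ ∉ Ddom R := fun h => hξn ((hiff ξ ha hb).2 h)
    have hnum : Tendsto (fun x => TD (Ddom R) f (ZZ x))
        (𝓝[{x | x ∈ Om R ∧ 0 < ra x ∧ 0 < rb x}] ξ) (𝓝 0) := by
      rw [Metric.tendsto_nhds]
      intro e he
      obtain ⟨K, hKD, hKc, hK⟩ := hT e he
      have h1 : ZZ ξ ∈ Kᶜ := fun h => hZξ (hKD h)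
      have h2 : ∀ᶠ x in 𝓝 ξ, ZZ x ∈ Kᶜ :=
        hZc.continuousAt.eventually_mem (hKc.isClosed.isOpen_compl.mem_nhds h1)
      filter_upwards [self_mem_nhdsWithin, mem_nhdsWithin_of_mem_nhds h2] with x hx hx2
      rw [Real.dist_eq, sub_zero]
      exact hK _ ⟨hmem x hx, hx2⟩
    have hra : Continuous ra := Complex.continuous_re.comp hZc
    have hrb : Continuous rb := Complex.continuous_im.comp hZc
    have hden : Tendsto (fun x => ra x * rb x)
        (𝓝[{x | x ∈ Om R ∧ 0 < ra x ∧ 0 < rb x}] ξ) (𝓝 (ra ξ * rb ξ)) :=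
      ((hra.mul hrb).tendsto ξ).mono_left nhdsWithin_le_nhds
    have := hnum.div hden (by positivity)
    rw [zero_div] at this
    exact this
  · -- on the axes
    have hpt : ZZ ξ = 1 ∨ ZZ ξ = Complex.I := by
      have hn := (hZn ξ).1
      by_cases hb : 0 < rb ξ
      · have ha : ra ξ = 0 := by
          by_contra h
          exact hcase ⟨lt_of_le_of_ne (ra_nonneg ξ) (Ne.symm h), hb⟩
        right
        have e1 : ZZ ξ = (rb ξ : ℂ) * Complex.I := by
          apply Complex.ext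
          · simp [ZZ, ha]
          · simp [ZZ]
        have e2 : Complex.arg (ZZ ξ) = Real.pi / 2 := by
          rw [e1, Complex.arg_real_mul _ hb, Complex.arg_I]
        have e3 : R (Complex.arg (ZZ ξ)) = 1 := by
          rw [e2]
          apply hR.near1
          unfold th0
          linarith [Real.pi_pos]
        rw [hnorm, e3] at hn
        rw [e1, norm_mul, Complex.norm_I, mul_one, Complex.norm_real,
          Real.norm_of_nonneg hb.le] at hn
        rw [e1, hn]; simp
      · have hb' : rb ξ = 0 := le_antisymm (not_lt.1 hb) (rb_nonneg ξ)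
        left
        have e1 : ZZ ξ = (ra ξ : ℂ) := by
          apply Complex.ext
          · simp [ZZ]
          · simp [ZZ, hb']
        have e2 : Complex.arg (ZZ ξ) = 0 := by
          rw [e1]
          exact Complex.arg_ofReal_of_nonneg (ra_nonneg ξ)
        have e3 : R (Complex.arg (ZZ ξ)) = 1 := by
          rw [e2]
          apply hR.near0
          unfold th0
          positivity
        rw [hnorm, e3] at hn
        rw [e1, Complex.norm_real, Real.norm_of_nonneg (ra_nonneg ξ)] at hn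
        rw [e1, hn]; simp
    have hT := h5 R hR f hfm ⟨C, hC⟩
    have hZt : Tendsto ZZ (𝓝[{x | x ∈ Om R ∧ 0 < ra x ∧ 0 < rb x}] ξ) (𝓝[Ddom R] (ZZ ξ)) := by
      apply tendsto_nhdsWithin_of_tendsto_nhds_of_eventually_within
      · exact (hZc.tendsto ξ).mono_left nhdsWithin_le_nhds
      · filter_upwards [self_mem_nhdsWithin] with x hx
        exact hmem x hx
    have hkey : Tendsto (fun z => TD (Ddom R) f z / (z ^ 2).im) (𝓝[Ddom R] (ZZ ξ)) (𝓝 0) := by
      rcases hpt with h | h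
      · rw [h]; exact hT.1
      · rw [h]; exact hT.2
    have h6 := (hkey.comp hZt).const_mul 2
    rw [mul_zero] at h6
    refine h6.congr ?_
    intro x
    rw [lift_eq]
    rfl

end LEP.BDY
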