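import Pool.Agent.Helper14.LE.Stmts

/-!
# T5: the corners `1` and `i` (Joukowski barrier)
-/

open MeasureTheory Set Filter Topology InnerProductSpace

noncomputable section

namespace LEP.T5

/-- `ζ = (u z - (1+ρ))/ρ`. -/
def ze (u : ℂ) (ρ : ℝ) (z : ℂ) : ℂ := (u * z - (1 + ρ)) / ρ

/-- The Joukowski map. -/
def JJ (u : ℂ) (ρ : ℝ) (z : ℂ) : ℂ := ze u ρ z + (ze u ρ z)⁻¹

variable {u : ℂ} {ρ : ℝ}

lemma norm_ze_gt (hρ : 0 < ρ) {z : ℂ} (hz : ρ < ‖u * z - (1 + ρ)‖) : 1 < ‖ze u ρ z‖ := by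
  unfold ze
  rw [norm_div, Complex.norm_real, Real.norm_of_nonneg hρ.le, lt_div_iff₀ hρ]
  simpa using hz

lemma ze_im (z : ℂ) : (ze u ρ z).im = (u * z).im / ρ := by
  unfold ze
  rw [Complex.div_ofReal_im]
  simp

lemma JJ_im {z : ℂ} : (JJ u ρ z).im = (u * z).im / ρ * (1 - 1 / ‖ze u ρ z‖ ^ 2) := by
  unfold JJ
  rw [Complex.add_im, Complex.inv_im, Complex.normSq_eq_norm_sq, ze_im]
  ring

lemma JJ_add_two {z : ℂ} (hz : ze u ρ z ≠ 0) :
    JJ u ρ z + 2 = (ze u ρ z + 1) ^ 2 / ze u ρ z := by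
  unfold JJ
  field_simp
  ring

lemma ze_add_one (hρ : 0 < ρ) (hu : ‖u‖ = 1) (z : ℂ) :
    ‖ze u ρ z + 1‖ = ‖z - starRingEnd ℂ u‖ / ρ := by
  have hρ' : (ρ : ℂ) ≠ 0 := by exact_mod_cast hρ.ne'
  have huu : u * starRingEnd ℂ u = 1 := by
    rw [Complex.mul_conj, Complex.normSq_eq_norm_sq, hu]; norm_num
  have : ze u ρ z + 1 = u * (z - starRingEnd ℂ u) / ρ := by
    unfold ze
    rw [mul_sub, huu]
    field_simp
    ring
  rw [this, norm_div, norm_mul, hu, one_mul, Complex.norm_real, Real.norm_of_nonneg hρ.le]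

lemma norm_JJ_add_two (hρ : 0 < ρ) (hu : ‖u‖ = 1) {z : ℂ} (hz : ze u ρ z ≠ 0) :
    ‖JJ u ρ z + 2‖ = ‖z - starRingEnd ℂ u‖ ^ 2 / (ρ ^ 2 * ‖ze u ρ z‖) := by
  rw [JJ_add_two hz, norm_div, norm_pow, ze_add_one hρ hu, div_pow, div_div]

lemma JJ_sub {x y : ℂ} (hx : ze u ρ x ≠ 0) (hy : ze u ρ y ≠ 0) :
    JJ u ρ x - JJ u ρ y = (u / ρ * (1 - 1 / (ze u ρ x * ze u ρ y))) * (x - y) := by
  have h1 : ze u ρ x - ze u ρ y = u / ρ * (x - y) := by
    unfold ze
    ring
  have h2 : JJ u ρ x - JJ u ρ y =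
      (ze u ρ x - ze u ρ y) * (1 - 1 / (ze u ρ x * ze u ρ y)) := by
    unfold JJ
    field_simp
    ring
  rw [h2, h1]; ring

lemma one_sub_ne {a b : ℂ} (ha : 1 < ‖a‖) (hb : 1 < ‖b‖) : 1 - 1 / (a * b) ≠ 0 := by
  intro h
  have h1 : 1 < ‖a * b‖ := by
    rw [norm_mul]; nlinarith
  have h2 : (1 : ℂ) / (a * b) = 1 := by linear_combination -h
  have h4 : a * b = 1 := (eq_of_div_eq_one h2).symm
  rw [h4] at h1
  simp at h1

/-- The barrier. -/
lemma kbound (hC : ST_CMP) {D : Set ℂ} {g : ℂ → ℂ → ℝ} (hD : IsOpen D) (hg : IsGreen D g)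
    (hρ : 0 < ρ) (hu : ‖u‖ = 1) (hout : ∀ z ∈ D, ρ < ‖u * z - (1 + ρ)‖) {s : ℝ}
    (hs : ∀ z ∈ D, 0 < s * (u * z).im) {x y : ℂ} (hx : x ∈ D) (hy : y ∈ D) (hxy : x ≠ y) :
    g x y ≤ |(JJ u ρ x).im| / (Real.pi * ‖JJ u ρ x - JJ u ρ y‖) := by
  have hu0 : u ≠ 0 := by
    intro h; rw [h, norm_zero] at hu; norm_num at hu
  have hρ' : (ρ : ℂ) ≠ 0 := by exact_mod_cast hρ.ne'
  have hzgt : ∀ z ∈ D, 1 < ‖ze u ρ z‖ := fun z hz => norm_ze_gt hρ (hout z hz)
  have hz0 : ∀ z ∈ D, ze u ρ z ≠ 0 := by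
    intro z hz h
    have := hzgt z hz
    rw [h, norm_zero] at this
    linarith
  have hJim : ∀ z ∈ D, 0 < s * (JJ u ρ z).im := by
    intro z hz
    rw [JJ_im]
    have h1 := hs z hz
    have h2 := hzgt z hz
    have h3 : 0 < 1 - 1 / ‖ze u ρ z‖ ^ 2 := by
      have : 1 / ‖ze u ρ z‖ ^ 2 < 1 := by
        rw [div_lt_one (by positivity)]
        nlinarith
      linarith
    have : s * ((u * z).im / ρ * (1 - 1 / ‖ze u ρ z‖ ^ 2)) =
        (s * (u * z).im) * (1 / ρ * (1 - 1 / ‖ze u ρ z‖ ^ 2)) := by ring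
    rw [this]
    positivity
  set H : ℂ → ℝ := fun x => (1 / (2 * Real.pi)) *
    (Real.log ‖JJ u ρ x - starRingEnd ℂ (JJ u ρ y)‖ -
      Real.log ‖u / ρ * (1 - 1 / (ze u ρ x * ze u ρ y))‖) with hH
  have ha0 : ∀ x ∈ D, JJ u ρ x - starRingEnd ℂ (JJ u ρ y) ≠ 0 := by
    intro x hx h
    have h1 : (JJ u ρ x - starRingEnd ℂ (JJ u ρ y)).im = 0 := by rw [h]; simp
    have h2 : (JJ u ρ x).im + (JJ u ρ y).im = 0 := by simpa using h1
    have h3 := hJim x hx
    have h4 := hJim y hy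
    have h5 : s * ((JJ u ρ x).im + (JJ u ρ y).im) = 0 := by rw [h2, mul_zero]
    nlinarith
  have hw0 : ∀ x ∈ D, u / ρ * (1 - 1 / (ze u ρ x * ze u ρ y)) ≠ 0 := by
    intro x hx
    exact mul_ne_zero (div_ne_zero hu0 hρ') (one_sub_ne (hzgt x hx) (hzgt y hy))
  have hanz : ∀ x : ℂ, AnalyticAt ℂ (ze u ρ) x := by
    intro x
    unfold ze
    fun_prop (disch := assumption)
  have hHarm : HarmonicOnNhd H D := by
    have e : H = (1 / (2 * Real.pi)) •
        ((fun x => Real.log ‖JJ u ρ x - starRingEnd ℂ (JJ u ρ y)‖) -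
        (fun x => Real.log ‖u / ρ * (1 - 1 / (ze u ρ x * ze u ρ y))‖)) := by
      funext x
      simp [hH]
    rw [e]
    apply HarmonicOnNhd.const_smul
    apply HarmonicOnNhd.sub
    · intro x hx
      refine AnalyticAt.harmonicAt_log_norm
        (f := fun x => JJ u ρ x - starRingEnd ℂ (JJ u ρ y)) ?_ (ha0 x hx)
      exact ((hanz x).add ((hanz x).inv (hz0 x hx))).sub analyticAt_const
    · intro x hx
      refine AnalyticAt.harmonicAt_log_norm
        (f := fun x => u / ρ * (1 - 1 / (ze u ρ x * ze u ρ y))) ?_ (hw0 x hx)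
      refine analyticAt_const.mul (analyticAt_const.sub (analyticAt_const.div ?_ ?_))
      · exact (hanz x).mul analyticAt_const
      · exact mul_ne_zero (hz0 x hx) (hz0 y hy)
  set k : ℂ → ℝ := fun x => H x - (1 / (2 * Real.pi)) * Real.log ‖x - y‖ with hk
  have hkeq : ∀ x ∈ D, x ≠ y → k x = (1 / (2 * Real.pi)) *
      (Real.log ‖JJ u ρ x - starRingEnd ℂ (JJ u ρ y)‖ - Real.log ‖JJ u ρ x - JJ u ρ y‖) := by
    intro x hx hxy
    have e : Real.log ‖JJ u ρ x - JJ u ρ y‖ =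
        Real.log ‖u / ρ * (1 - 1 / (ze u ρ x * ze u ρ y))‖ + Real.log ‖x - y‖ := by
      rw [JJ_sub (hz0 x hx) (hz0 y hy), norm_mul, Real.log_mul]
      · exact norm_ne_zero_iff.2 (hw0 x hx)
      · exact norm_ne_zero_iff.2 (sub_ne_zero.2 hxy)
    simp only [hk, hH]
    rw [e]; ring
  have hb0 : ∀ x ∈ D, x ≠ y → 0 < ‖JJ u ρ x - JJ u ρ y‖ := by
    intro x hx hxy
    rw [JJ_sub (hz0 x hx) (hz0 y hy)]
    exact norm_pos_iff.2 (mul_ne_zero (hw0 x hx) (sub_ne_zero.2 hxy))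
  have hsq : ∀ x ∈ D, ‖JJ u ρ x - JJ u ρ y‖ ≤ ‖JJ u ρ x - starRingEnd ℂ (JJ u ρ y)‖ := by
    intro x hx
    have hpos : 0 ≤ (JJ u ρ x).im * (JJ u ρ y).im := by
      have h3 := hJim x hx
      have h4 := hJim y hy
      have h5 : 0 < s ^ 2 * ((JJ u ρ x).im * (JJ u ρ y).im) := by
        have := mul_pos h3 h4
        calc 0 < s * (JJ u ρ x).im * (s * (JJ u ρ y).im) := this
          _ = _ := by ring
      have h6 : 0 ≤ s ^ 2 := sq_nonneg s
      by_contra h7
      push Not at h7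
      nlinarith [mul_nonneg h6 (neg_nonneg.2 h7.le)]
    rw [← abs_of_nonneg (norm_nonneg (JJ u ρ x - JJ u ρ y)),
      ← abs_of_nonneg (norm_nonneg (JJ u ρ x - starRingEnd ℂ (JJ u ρ y))), ← sq_le_sq,
      ← Complex.normSq_eq_norm_sq, ← Complex.normSq_eq_norm_sq, Complex.normSq_apply,
      Complex.normSq_apply]
    simp only [Complex.sub_re, Complex.sub_im, Complex.conj_re, Complex.conj_im]
    nlinarith
  have hk0 : ∀ x ∈ D, x ≠ y → 0 ≤ k x := by
    intro x hx hxy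
    rw [hkeq x hx hxy]
    have := Real.log_le_log (hb0 x hx hxy) (hsq x hx)
    have hpi := Real.pi_pos
    apply mul_nonneg (by positivity)
    linarith
  have h1 := hC D g y k H hD hg hy hHarm (fun x hx hxy => rfl) hk0 x hx hxy
  refine h1.trans ?_
  rw [hkeq x hx hxy]
  set a := ‖JJ u ρ x - starRingEnd ℂ (JJ u ρ y)‖ with hadef
  set b := ‖JJ u ρ x - JJ u ρ y‖ with hbdef
  have hb : 0 < b := hb0 x hx hxy
  have hapos : 0 < a := lt_of_lt_of_le hb (hsq x hx)
  have hab : a ≤ b + 2 * |(JJ u ρ x).im| := by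
    have e1 : a = ‖starRingEnd ℂ (JJ u ρ x) - JJ u ρ y‖ := by
      rw [hadef, ← Complex.norm_conj (JJ u ρ x - starRingEnd ℂ (JJ u ρ y))]
      simp
    have e2 : starRingEnd ℂ (JJ u ρ x) - JJ u ρ y = (JJ u ρ x - JJ u ρ y) +
        (starRingEnd ℂ (JJ u ρ x) - JJ u ρ x) := by ring
    have e3 : ‖starRingEnd ℂ (JJ u ρ x) - JJ u ρ x‖ = 2 * |(JJ u ρ x).im| := by
      have : starRingEnd ℂ (JJ u ρ x) - JJ u ρ x = ((-(2 * (JJ u ρ x).im) : ℝ) : ℂ) * Complex.I := by
        apply Complex.ext <;> simp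
        ring
      rw [this, norm_mul, Complex.norm_I, mul_one, Complex.norm_real, Real.norm_eq_abs, abs_neg,
        abs_mul]
      norm_num
    rw [e1, e2]
    refine (norm_add_le _ _).trans ?_
    rw [e3]
  have hlog : Real.log a - Real.log b ≤ 2 * |(JJ u ρ x).im| / b := by
    rw [← Real.log_div hapos.ne' hb.ne']
    refine (Real.log_le_sub_one_of_pos (by positivity)).trans ?_
    rw [div_sub_one hb.ne']
    gcongr
    linarith
  have hpi := Real.pi_pos
  calc (1 / (2 * Real.pi)) * (Real.log a - Real.log b)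
      ≤ (1 / (2 * Real.pi)) * (2 * |(JJ u ρ x).im| / b) := by gcongr
    _ = |(JJ u ρ x).im| / (Real.pi * b) := by
        field_simp

/-- The radial kernel. -/
def ph (r : ℝ) (w : ℂ) : ℝ := (Metric.ball (0 : ℂ) r).indicator (fun w => ‖w‖⁻¹) w

lemma ph_nonneg (r : ℝ) (w : ℂ) : 0 ≤ ph r w := by
  unfold ph
  apply indicator_nonneg
  intro _ _
  positivity

lemma ph_eq (r : ℝ) : ph r = fun w => (Iio r).indicator (fun t : ℝ => t⁻¹) ‖w‖ := by
  funext w
  unfold ph
  by_cases h : ‖w‖ < r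
  · rw [indicator_of_mem (by simpa using h), indicator_of_mem (by simpa using h)]
  · rw [indicator_of_notMem (by simpa using h), indicator_of_notMem (by simpa using h)]

lemma ph_integrable (r : ℝ) : Integrable (ph r) := by
  rw [ph_eq]
  rw [integrable_fun_norm_addHaar volume (f := (Iio r).indicator (fun t : ℝ => t⁻¹))]
  simp only [Complex.finrank_real_complex]
  have e : ∀ y ∈ Ioi (0 : ℝ), y ^ (2 - 1) • (Iio r).indicator (fun t : ℝ => t⁻¹) y =
      (Iio r).indicator (fun _ => (1 : ℝ)) y := by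
    intro y hy
    have hy' : y ≠ 0 := (ne_of_gt hy)
    by_cases h : y < r
    · rw [indicator_of_mem (by simpa using h), indicator_of_mem (by simpa using h)]
      simp [hy']
    · rw [indicator_of_notMem (by simpa using h), indicator_of_notMem (by simpa using h)]
      simp
  rw [integrableOn_congr_fun e measurableSet_Ioi]
  rw [IntegrableOn, integrable_indicator_iff measurableSet_Iio, IntegrableOn,
    Measure.restrict_restrict measurableSet_Iio]
  have : Iio r ∩ Ioi (0 : ℝ) = Ioo 0 r := by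
    ext t; simp [and_comm]
  rw [this]
  exact integrable_const _

lemma ph_integral {r : ℝ} (hr : 0 ≤ r) : ∫ w, ph r w = 2 * Real.pi * r := by
  rw [ph_eq]
  rw [integral_fun_norm_addHaar volume ((Iio r).indicator (fun t : ℝ => t⁻¹))]
  simp only [Complex.finrank_real_complex]
  have e : ∀ y ∈ Ioi (0 : ℝ), y ^ (2 - 1) • (Iio r).indicator (fun t : ℝ => t⁻¹) y =
      (Iio r).indicator (fun _ => (1 : ℝ)) y := by
    intro y hy
    have hy' : y ≠ 0 := (ne_of_gt hy)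
    by_cases h : y < r
    · rw [indicator_of_mem (by simpa using h), indicator_of_mem (by simpa using h)]
      simp [hy']
    · rw [indicator_of_notMem (by simpa using h), indicator_of_notMem (by simpa using h)]
      simp
  rw [setIntegral_congr_fun measurableSet_Ioi e, integral_indicator measurableSet_Iio,
    Measure.restrict_restrict measurableSet_Iio]
  have : Iio r ∩ Ioi (0 : ℝ) = Ioo 0 r := by
    ext t; simp [and_comm]
  rw [this]
  simp [Measure.real, Complex.volume_ball, hr]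
  ring

lemma sq_im_le {B : ℝ} {y : ℂ} (hy : ‖y‖ ≤ B) : (y ^ 2).im ≤ B ^ 2 := by
  calc (y ^ 2).im ≤ ‖y ^ 2‖ := (le_abs_self _).trans (Complex.abs_im_le_norm _)
    _ = ‖y‖ ^ 2 := norm_pow _ _
    _ ≤ B ^ 2 := by gcongr

lemma sq_im_pos {y : ℂ} (hy : y ∈ Qd) : 0 < (y ^ 2).im := by
  have h1 : 0 < y.re := hy.1
  have h2 : 0 < y.im := hy.2
  have : (y ^ 2).im = 2 * (y.re * y.im) := by
    simp [pow_two, Complex.mul_im]; ring
  rw [this]; positivity

/-- `η = 1 - 1/|ζ|²`. -/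
def et (u : ℂ) (ρ : ℝ) (x : ℂ) : ℝ := 1 - 1 / ‖ze u ρ x‖ ^ 2

lemma et_tendsto (hρ : 0 < ρ) (hu : ‖u‖ = 1) :
    Tendsto (et u ρ) (𝓝 (starRingEnd ℂ u)) (𝓝 0) := by
  have hρ' : (ρ : ℂ) ≠ 0 := by exact_mod_cast hρ.ne'
  have huu : u * starRingEnd ℂ u = 1 := by
    rw [Complex.mul_conj, Complex.normSq_eq_norm_sq, hu]; norm_num
  have hz : ze u ρ (starRingEnd ℂ u) = -1 := by
    unfold ze
    rw [huu]
    field_simp
    ring
  have hc : ContinuousAt (et u ρ) (starRingEnd ℂ u) := by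
    have h1 : ContinuousAt (ze u ρ) (starRingEnd ℂ u) := by
      unfold ze
      fun_prop (disch := assumption)
    have h2 : ‖ze u ρ (starRingEnd ℂ u)‖ ^ 2 ≠ 0 := by rw [hz]; simp
    exact continuousAt_const.sub (continuousAt_const.div (h1.norm.pow 2) h2)
  have h3 : et u ρ (starRingEnd ℂ u) = 0 := by
    unfold et; rw [hz]; simp
  have := hc.tendsto
  rwa [h3] at this

lemma corner (hC : ST_CMP) (hQ : ST_GQ1) {D : Set ℂ} {g : ℂ → ℂ → ℝ} (hD : IsOpen D)
    (hDQ : D ⊆ Qd) (hg : IsGreen D g) {B : ℝ} (hB : 1 ≤ B) (hDB : ∀ z ∈ D, ‖z‖ ≤ B)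
    (hρ : 0 < ρ) (hρ1 : ρ ≤ 1) (hu : ‖u‖ = 1) (hout : ∀ z ∈ D, ρ < ‖u * z - (1 + ρ)‖) {s : ℝ}
    (hs : ∀ z ∈ D, 0 < s * (u * z).im)
    (hnear : ∀ z ∈ D, ‖z - starRingEnd ℂ u‖ < 1 / 2 → |(u * z).im| ≤ (z ^ 2).im)
    {f : ℂ → ℝ} {C : ℝ} (hf : ∀ y ∈ D, |f y| ≤ C * (y ^ 2).im) :
    Tendsto (fun x => (∫ y in D, g x y * f y) / (x ^ 2).im) (𝓝[D] (starRingEnd ℂ u)) (𝓝 0) := by
  have hpi := Real.pi_pos
  set p := starRingEnd ℂ u with hp
  have hpn : ‖p‖ = 1 := by rw [hp, Complex.norm_conj, hu]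
  set M : ℝ := |C| * B ^ 2 with hM
  have hM0 : 0 ≤ M := by positivity
  have hfM : ∀ y ∈ D, |f y| ≤ M := by
    intro y hy
    refine (hf y hy).trans ?_
    have h1 := sq_im_pos (hDQ hy)
    have h2 := sq_im_le (hDB y hy)
    calc C * (y ^ 2).im ≤ |C| * (y ^ 2).im := by gcongr; exact le_abs_self C
      _ ≤ |C| * B ^ 2 := by gcongr
  have hzgt : ∀ z ∈ D, 1 < ‖ze u ρ z‖ := fun z hz => norm_ze_gt hρ (hout z hz)
  have hz0 : ∀ z ∈ D, ze u ρ z ≠ 0 := by
    intro z hz h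
    have := hzgt z hz
    rw [h, norm_zero] at this
    linarith
  have hzle : ∀ z ∈ D, ‖ze u ρ z‖ ≤ (B + 2) / ρ := by
    intro z hz
    unfold ze
    rw [norm_div, Complex.norm_real, Real.norm_of_nonneg hρ.le]
    gcongr
    calc ‖u * z - (1 + ρ)‖ ≤ ‖u * z‖ + ‖(1 + ρ : ℂ)‖ := norm_sub_le _ _
      _ ≤ B + (1 + ρ) := by
          gcongr
          · rw [norm_mul, hu, one_mul]; exact hDB z hz
          · have : (1 + ρ : ℂ) = ((1 + ρ : ℝ) : ℂ) := by push_cast; ring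
            rw [this, Complex.norm_real, Real.norm_of_nonneg (by linarith)]
      _ ≤ B + 2 := by linarith
  have het0 : ∀ x ∈ D, 0 ≤ et u ρ x := by
    intro x hx
    unfold et
    have h2 := hzgt x hx
    have : 1 / ‖ze u ρ x‖ ^ 2 ≤ 1 := by
      rw [div_le_one (by positivity)]
      nlinarith
    linarith
  have hJim : ∀ x ∈ D, |(JJ u ρ x).im| = |(u * x).im| / ρ * et u ρ x := by
    intro x hx
    rw [JJ_im, abs_mul, abs_div, abs_of_pos hρ]
    congr 1
    exact abs_of_nonneg (het0 x hx)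
  set V : ℝ := volume.real D with hV
  have hDfin : volume D ≠ ⊤ := by
    have hb : Bornology.IsBounded D := by
      refine (Metric.isBounded_closedBall (x := (0 : ℂ)) (r := B)).subset ?_
      intro z hz
      simpa using hDB z hz
    exact hb.measure_lt_top.ne
  rw [Metric.tendsto_nhds]
  intro e he
  set ε : ℝ := min (1 / 2) (e / (16 * (M + 1))) with hε
  have hε0 : 0 < ε := by
    rw [hε]; positivity
  have hε1 : 8 * M * ε < e / 2 := by
    have h1 : ε ≤ e / (16 * (M + 1)) := min_le_right _ _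
    calc 8 * M * ε ≤ 8 * M * (e / (16 * (M + 1))) := by gcongr
      _ = (e / 2) * (M / (M + 1)) := by field_simp; ring
      _ < (e / 2) * 1 := by
          gcongr
          rw [div_lt_one (by positivity)]
          linarith
      _ = e / 2 := by ring
  set δ : ℝ := ε ^ 2 / (2 * ρ * (B + 2)) with hδ
  have hδ0 : 0 < δ := by rw [hδ]; positivity
  set K : ℝ := M * V / (ρ * Real.pi * δ) with hK
  have hev1 : ∀ᶠ x in 𝓝 p, K * et u ρ x < e / 2 := by
    have h1 : Tendsto (fun x => K * et u ρ x) (𝓝 p) (𝓝 (K * 0)) :=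
      (et_tendsto hρ hu).const_mul K
    rw [mul_zero] at h1
    exact h1.eventually_lt_const (by positivity)
  have hev2 : ∀ᶠ x in 𝓝 p, ‖x - p‖ < ε ∧ ‖x - p‖ ^ 2 < ρ * ε ^ 2 / (2 * (B + 2)) := by
    have h1 : Tendsto (fun x : ℂ => ‖x - p‖) (𝓝 p) (𝓝 0) := by
      have h := ((continuous_id.sub (continuous_const (y := p))).norm).tendsto p
      simpa using h
    have h2 : Tendsto (fun x : ℂ => ‖x - p‖ ^ 2) (𝓝 p) (𝓝 0) := by
      have h := h1.pow 2
      simpa using h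
    exact (h1.eventually_lt_const hε0).and (h2.eventually_lt_const (by positivity))
  filter_upwards [self_mem_nhdsWithin, mem_nhdsWithin_of_mem_nhds hev1,
    mem_nhdsWithin_of_mem_nhds hev2] with x hx he1 he2
  obtain ⟨hxε, hxε2⟩ := he2
  have hxim : 0 < (x ^ 2).im := sq_im_pos (hDQ hx)
  have hxhalf : ‖x - p‖ < 1 / 2 := lt_of_lt_of_le hxε (min_le_left _ _)
  have hxn : 1 / 2 ≤ ‖x‖ := by
    have h1 : ‖p‖ - ‖x‖ ≤ ‖p - x‖ := norm_sub_norm_le _ _
    rw [norm_sub_rev] at h1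
    linarith
  have hpsi : psi x ≤ (x ^ 2).im := by
    have e1 : (x ^ 2).im = 2 * (x.re * x.im) := by
      simp [pow_two, Complex.mul_im]; ring
    have h1 : 0 < x.re := (hDQ hx).1
    have h2 : 0 < x.im := (hDQ hx).2
    unfold psi
    rw [e1, div_le_iff₀ (by linarith)]
    have : 0 ≤ x.re * x.im := by positivity
    nlinarith
  -- bound on `g`
  have hb1 : ∀ y ∈ D, x ≠ y → g x y ≤ 2 / Real.pi * ((x ^ 2).im * ‖x - y‖⁻¹) := by
    intro y hy hxy
    refine (hQ.2.2.2.2 D g hD hDQ hg x hx y hy).trans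
      ((hQ.2.2.1 x (hDQ hx) y (hDQ hy) hxy).trans ?_)
    rw [div_eq_mul_inv (psi x)]
    gcongr
  have hb2 : ∀ y ∈ D, ε ≤ ‖y - p‖ → g x y ≤ (x ^ 2).im * et u ρ x / (ρ * Real.pi * δ) := by
    intro y hy hyε
    have hxy : x ≠ y := by
      rintro rfl; linarith
    refine (kbound hC hD hg hρ hu hout hs hx hy hxy).trans ?_
    have hJy : ε ^ 2 / (ρ * (B + 2)) ≤ ‖JJ u ρ y + 2‖ := by
      rw [norm_JJ_add_two hρ hu (hz0 y hy), ← hp]
      have h1 : ρ ^ 2 * ‖ze u ρ y‖ ≤ ρ * (B + 2) := by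
        calc ρ ^ 2 * ‖ze u ρ y‖ ≤ ρ ^ 2 * ((B + 2) / ρ) := by gcongr; exact hzle y hy
          _ = ρ * (B + 2) := by field_simp
      have h2 : 0 < ρ ^ 2 * ‖ze u ρ y‖ := by
        have := hzgt y hy
        positivity
      gcongr
    have hJx : ‖JJ u ρ x + 2‖ ≤ δ := by
      rw [norm_JJ_add_two hρ hu (hz0 x hx), ← hp]
      have h1 := hzgt x hx
      calc ‖x - p‖ ^ 2 / (ρ ^ 2 * ‖ze u ρ x‖) ≤ ‖x - p‖ ^ 2 / (ρ ^ 2 * 1) := by gcongr
        _ ≤ (ρ * ε ^ 2 / (2 * (B + 2))) / (ρ ^ 2 * 1) := by gcongr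
        _ = δ := by rw [hδ]; field_simp
    have hdiff : δ ≤ ‖JJ u ρ x - JJ u ρ y‖ := by
      have h1 : ‖JJ u ρ y + 2‖ ≤ ‖JJ u ρ x + 2‖ + ‖JJ u ρ x - JJ u ρ y‖ := by
        have : JJ u ρ y + 2 = (JJ u ρ x + 2) - (JJ u ρ x - JJ u ρ y) := by ring
        rw [this]
        exact norm_sub_le _ _
      have h2 : ε ^ 2 / (ρ * (B + 2)) = 2 * δ := by
        rw [hδ]; field_simp
      linarith
    rw [hJim x hx]
    have h3 := hnear x hx hxhalf
    calc |(u * x).im| / ρ * et u ρ x / (Real.pi * ‖JJ u ρ x - JJ u ρ y‖)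
        ≤ (x ^ 2).im / ρ * et u ρ x / (Real.pi * δ) := by
          have := het0 x hx
          gcongr
      _ = (x ^ 2).im * et u ρ x / (ρ * Real.pi * δ) := by field_simp
  -- the bounding function
  set b : ℂ → ℝ := fun y => (2 / Real.pi * (x ^ 2).im * M) * ph (2 * ε) (x - y) +
    (x ^ 2).im * et u ρ x / (ρ * Real.pi * δ) * M with hbdef
  have hetx := het0 x hx
  have hb : ∀ y ∈ D, ‖g x y * f y‖ ≤ b y := by
    intro y hy
    have hg0 := hg.nonneg x y
    rw [norm_mul, Real.norm_of_nonneg hg0, Real.norm_eq_abs]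
    have hph := ph_nonneg (2 * ε) (x - y)
    have h1 : 0 ≤ (2 / Real.pi * (x ^ 2).im * M) * ph (2 * ε) (x - y) := by positivity
    have h2 : 0 ≤ (x ^ 2).im * et u ρ x / (ρ * Real.pi * δ) * M := by positivity
    by_cases hxy : x = y
    · subst hxy
      rw [hg.diag, zero_mul]
      simp only [hbdef]
      positivity
    by_cases hyε : ε ≤ ‖y - p‖
    · calc g x y * |f y| ≤ (x ^ 2).im * et u ρ x / (ρ * Real.pi * δ) * M := by
            gcongr
            · exact hb2 y hy hyε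
            · exact hfM y hy
        _ ≤ b y := by simp only [hbdef]; linarith
    · push Not at hyε
      have hball : x - y ∈ Metric.ball (0 : ℂ) (2 * ε) := by
        rw [mem_ball_zero_iff]
        have : x - y = (x - p) - (y - p) := by ring
        rw [this]
        refine (norm_sub_le _ _).trans_lt ?_
        linarith
      have hphe : ph (2 * ε) (x - y) = ‖x - y‖⁻¹ := by
        unfold ph
        rw [indicator_of_mem hball]
      calc g x y * |f y| ≤ 2 / Real.pi * ((x ^ 2).im * ‖x - y‖⁻¹) * M := by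
            gcongr
            · exact hb1 y hy hxy
            · exact hfM y hy
        _ = (2 / Real.pi * (x ^ 2).im * M) * ph (2 * ε) (x - y) := by rw [hphe]; ring
        _ ≤ b y := by simp only [hbdef]; linarith
  have hphint : Integrable (fun y => ph (2 * ε) (x - y)) := (ph_integrable (2 * ε)).comp_sub_left x
  have hbint : IntegrableOn b D := by
    refine ((hphint.const_mul _).integrableOn).add ?_
    exact integrableOn_const hDfin
  have hint : ∫ y in D, b y ≤ (x ^ 2).im * (8 * M * ε + K * et u ρ x) := by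
    have h1 : ∫ y in D, b y = (2 / Real.pi * (x ^ 2).im * M) * (∫ y in D, ph (2 * ε) (x - y)) +
        (x ^ 2).im * et u ρ x / (ρ * Real.pi * δ) * M * V := by
      simp only [hbdef]
      rw [integral_add ((hphint.const_mul _).integrableOn) (integrableOn_const hDfin),
        integral_const_mul, setIntegral_const, smul_eq_mul]
      ring
    have h2 : ∫ y in D, ph (2 * ε) (x - y) ≤ 2 * Real.pi * (2 * ε) := by
      calc ∫ y in D, ph (2 * ε) (x - y) ≤ ∫ y, ph (2 * ε) (x - y) :=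
            setIntegral_le_integral hphint (Eventually.of_forall fun y => ph_nonneg _ _)
        _ = ∫ y, ph (2 * ε) y := integral_sub_left_eq_self _ volume x
        _ = 2 * Real.pi * (2 * ε) := ph_integral (by positivity)
    rw [h1]
    calc (2 / Real.pi * (x ^ 2).im * M) * (∫ y in D, ph (2 * ε) (x - y)) +
        (x ^ 2).im * et u ρ x / (ρ * Real.pi * δ) * M * V
        ≤ (2 / Real.pi * (x ^ 2).im * M) * (2 * Real.pi * (2 * ε)) +
        (x ^ 2).im * et u ρ x / (ρ * Real.pi * δ) * M * V := by gcongr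
      _ = (x ^ 2).im * (8 * M * ε + K * et u ρ x) := by
          rw [hK]; field_simp; ring
  have hfin : |∫ y in D, g x y * f y| ≤ (x ^ 2).im * (8 * M * ε + K * et u ρ x) := by
    refine le_trans ?_ hint
    rw [← Real.norm_eq_abs]
    refine (norm_integral_le_integral_norm _).trans ?_
    apply integral_mono_of_nonneg
    · exact Eventually.of_forall fun y => norm_nonneg _
    · exact hbint
    · filter_upwards [ae_restrict_mem hD.measurableSet] with y hy
      exact hb y hy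
  rw [Real.dist_eq, sub_zero, abs_div, abs_of_pos hxim, div_lt_iff₀ hxim]
  calc |∫ y in D, g x y * f y| ≤ (x ^ 2).im * (8 * M * ε + K * et u ρ x) := hfin
    _ < (x ^ 2).im * (e / 2 + e / 2) := by gcongr
    _ = e * (x ^ 2).im := by ring

lemma th0_pos : 0 < th0 := by unfold th0; positivity

lemma th0_eq : 27 * th0 = Real.pi / 2 := by unfold th0; ring

lemma sin_th0_pos : 0 < Real.sin th0 := by
  apply Real.sin_pos_of_pos_of_lt_pi th0_pos
  have := th0_eq
  have := Real.pi_pos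
  linarith [th0_pos]

lemma out1 (hρ : 0 < ρ) {w : ℂ} (h : ‖w‖ < 1) : ρ < ‖w - (1 + ρ)‖ := by
  have h1 : ‖(1 + ρ : ℂ)‖ = 1 + ρ := by
    have : (1 + ρ : ℂ) = ((1 + ρ : ℝ) : ℂ) := by push_cast; ring
    rw [this, Complex.norm_real, Real.norm_of_nonneg (by linarith)]
  have h2 : ‖(1 + ρ : ℂ)‖ - ‖w‖ ≤ ‖(1 + ρ : ℂ) - w‖ := norm_sub_norm_le _ _
  rw [norm_sub_rev] at h2
  linarith

lemma out2 {w : ℂ} (h : 0 < w.im * Real.cos th0 - w.re * Real.sin th0) :
    Real.sin th0 < ‖w - (1 + (Real.sin th0 : ℝ))‖ := by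
  set ρ := Real.sin th0 with hρ
  set c := Real.cos th0 with hc
  have hρ0 : 0 < ρ := sin_th0_pos
  have h1 : ‖w - (1 + (ρ : ℝ))‖ ^ 2 = (w.re - (1 + ρ)) ^ 2 + w.im ^ 2 := by
    rw [← Complex.normSq_eq_norm_sq, Complex.normSq_apply]
    simp
    ring
  have h2 : ρ ^ 2 + c ^ 2 = 1 := Real.sin_sq_add_cos_sq th0
  have h3 : ρ < w.im * c - (w.re - (1 + ρ)) * ρ := by nlinarith
  have h4 : ρ ^ 2 < (w.im * c - (w.re - (1 + ρ)) * ρ) ^ 2 := by gcongr
  have h5 : (w.im * c - (w.re - (1 + ρ)) * ρ) ^ 2 ≤ (w.re - (1 + ρ)) ^ 2 + w.im ^ 2 := by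
    have : (w.re - (1 + ρ)) ^ 2 + w.im ^ 2 =
        ((w.re - (1 + ρ)) ^ 2 + w.im ^ 2) * (ρ ^ 2 + c ^ 2) := by rw [h2, mul_one]
    rw [this]
    nlinarith [sq_nonneg (w.im * ρ + (w.re - (1 + ρ)) * c)]
  rw [← h1] at h5
  exact lt_of_pow_lt_pow_left₀ 2 (norm_nonneg _) (h4.trans_le h5)

lemma fold_eq {z : ℂ} (hz : z ∈ Qd) : fold z = z := by
  apply Complex.ext
  · exact abs_of_pos hz.1
  · exact abs_of_pos hz.2

lemma norm_lt_of_mem {R : ℝ → ℝ} {z : ℂ} (hz : z ∈ Ddom R) : ‖z‖ < R (Complex.arg z) := by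
  have h1 : ‖z‖ < R (Complex.arg (fold z)) := hz.1
  rwa [fold_eq hz.2] at h1

lemma outA {R : ℝ → ℝ} (hR : Prof R) {z : ℂ} (hz : z ∈ Ddom R) :
    Real.sin th0 < ‖(1 : ℂ) * z - (1 + (Real.sin th0 : ℝ))‖ := by
  rw [one_mul]
  by_cases h : Complex.arg z ≤ th0
  · apply out1 sin_th0_pos
    have := norm_lt_of_mem hz
    rwa [hR.near0 _ h] at this
  · push Not at h
    apply out2
    have hz0 : 0 < ‖z‖ := by
      apply norm_pos_iff.2
      intro h0
      have := hz.2.1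
      rw [h0] at this
      simp at this
    have e : z.im * Real.cos th0 - z.re * Real.sin th0 =
        ‖z‖ * Real.sin (Complex.arg z - th0) := by
      rw [Real.sin_sub, ← Complex.norm_mul_sin_arg z]
      rw [← Complex.norm_mul_cos_arg z]
      ring
    rw [e]
    apply mul_pos hz0
    apply Real.sin_pos_of_pos_of_lt_pi
    · linarith
    · linarith [Complex.arg_le_pi z, th0_pos]

lemma outB {R : ℝ → ℝ} (hR : Prof R) {z : ℂ} (hz : z ∈ Ddom R) :
    Real.sin th0 < ‖(-Complex.I) * z - (1 + (Real.sin th0 : ℝ))‖ := by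
  have e0 : ‖(-Complex.I) * z - (1 + (Real.sin th0 : ℝ))‖ =
      ‖(⟨z.im, z.re⟩ : ℂ) - (1 + (Real.sin th0 : ℝ))‖ := by
    rw [← Complex.norm_conj]
    congr 1
    apply Complex.ext <;> simp
  rw [e0]
  have hz0 : 0 < ‖z‖ := by
    apply norm_pos_iff.2
    intro h0
    have := hz.2.1
    rw [h0] at this
    simp at this
  by_cases h : 26 * th0 ≤ Complex.arg z
  · apply out1 sin_th0_pos
    have h1 := norm_lt_of_mem hz
    rw [hR.near1 _ h] at h1
    have : ‖(⟨z.im, z.re⟩ : ℂ)‖ = ‖z‖ := by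
      rw [← Real.sqrt_sq (norm_nonneg (⟨z.im, z.re⟩ : ℂ)), ← Real.sqrt_sq (norm_nonneg z),
        ← Complex.normSq_eq_norm_sq, ← Complex.normSq_eq_norm_sq, Complex.normSq_apply,
        Complex.normSq_apply]
      congr 1
      ring
    rwa [this]
  · push Not at h
    apply out2
    have e : (⟨z.im, z.re⟩ : ℂ).im * Real.cos th0 - (⟨z.im, z.re⟩ : ℂ).re * Real.sin th0 =
        ‖z‖ * Real.cos (Complex.arg z + th0) := by
      simp only
      rw [Real.cos_add]
      nth_rewrite 1 [← Complex.norm_mul_cos_arg z]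
      rw [← Complex.norm_mul_sin_arg z]
      ring
    rw [e]
    apply mul_pos hz0
    have h2 : 0 ≤ Complex.arg z := Complex.arg_nonneg_iff.2 hz.2.2.le
    apply Real.cos_pos_of_mem_Ioo
    constructor
    · linarith [th0_pos, Real.pi_pos]
    · linarith [th0_eq]

/-- **T5** -/
theorem st_T5 (hQ : ST_GQ1) (hC : ST_CMP) (hG : ST_GF2) (hE : ST_GEO) : ST_T5 := by
  intro R hR f _ hf
  obtain ⟨C, hf⟩ := hf
  obtain ⟨B, hB⟩ := hR.bdd
  have hB1 : 1 ≤ B := (hR.one_le 0).trans (hB 0)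
  have hD : IsOpen (Ddom R) := (hE.1 R hR).2.1
  have hg := hG R hR
  have hDB : ∀ z ∈ Ddom R, ‖z‖ ≤ B := fun z hz => ((norm_lt_of_mem hz).trans_le (hB _)).le
  have e2 : ∀ z : ℂ, (z ^ 2).im = 2 * (z.re * z.im) := by
    intro z
    simp [pow_two, Complex.mul_im]; ring
  constructor
  · have := corner (u := 1) (ρ := Real.sin th0) (s := 1) (C := C) (f := f) hC hQ hD inter_subset_right hg hB1 hDB
      sin_th0_pos (Real.sin_le_one _) (by simp) (fun z hz => outA hR hz)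
      (fun z hz => by simpa using hz.2.2) ?_ hf
    · rw [map_one] at this
      exact this
    · intro z hz hn
      rw [map_one] at hn
      have h1 : 1 / 2 ≤ z.re := by
        have := (Complex.abs_re_le_norm (z - 1)).trans hn.le
        rw [Complex.sub_re, Complex.one_re, abs_le] at this
        linarith
      have h2 : 0 < z.im := hz.2.2
      rw [one_mul, abs_of_pos h2, e2]
      nlinarith
  · have := corner (u := -Complex.I) (ρ := Real.sin th0) (s := -1) (C := C) (f := f) hC hQ hD inter_subset_right hg hB1 hDB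
      sin_th0_pos (Real.sin_le_one _) (by simp) (fun z hz => outB hR hz)
      (fun z hz => by simpa using hz.2.1) ?_ hf
    · rw [map_neg, Complex.conj_I, neg_neg] at this
      exact this
    · intro z hz hn
      rw [map_neg, Complex.conj_I, neg_neg] at hn
      have h1 : 1 / 2 ≤ z.im := by
        have := (Complex.abs_im_le_norm (z - Complex.I)).trans hn.le
        rw [Complex.sub_im, Complex.I_im, abs_le] at this
        linarith
      have h2 : 0 < z.re := hz.2.1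
      have e3 : (-Complex.I * z).im = -z.re := by simp
      rw [e3, abs_neg, abs_of_pos h2, e2]
      nlinarith

end LEP.T5
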